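import Mathlib

/-! MP_9df05e_al: transitivity of p-conjugacy in all variants does not pass to the semigroup. -/

namespace Pool.Agent.Results.MP_9df05e_al.Variants

/-- p-conjugacy: `a = u v` and `b = v u` with `u, v` in the semigroup with an adjoined one. -/
def PConj {S : Type*} (s : Semigroup S) (a b : S) : Prop :=
  ∃ u v : WithOne S, (a : WithOne S) = u * v ∧ (b : WithOne S) = v * u

/-- The variant of a semigroup at `a`: same set, product `x * a * y`. -/
def variant {S : Type*} (s : Semigroup S) (a : S) : Semigroup S where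
  mul x y := x * a * y
  mul_assoc x y z := by
    show x * a * y * a * z = x * a * (y * a * z)
    simp only [mul_assoc]

/-- multiplication table: 0,1,2,3 are u,v,x,y; 4,5,6 are uv, vu = xy, yx; 7 is zero -/
def tab (i j : Fin 8) : Fin 8 :=
  if i = 0 ∧ j = 1 then 4 else if i = 1 ∧ j = 0 then 5 else
  if i = 2 ∧ j = 3 then 5 else if i = 3 ∧ j = 2 then 6 else 7

def sg : Semigroup (Fin 8) where
  mul := tab
  mul_assoc := by
    intro a b c
    show tab (tab a b) c = tab a (tab b c)
    revert a b c
    decide

theorem tab3 : ∀ a b c : Fin 8, tab (tab a b) c = 7 := by decide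

theorem pconj_cases {S : Type*} (s : Semigroup S) {a b : S} (h : PConj s a b) :
    a = b ∨ ∃ u v : S, a = u * v ∧ b = v * u := by
  obtain ⟨u, v, h1, h2⟩ := h
  rcases eq_or_ne u 1 with rfl | hu0
  · rw [one_mul] at h1
    rw [mul_one] at h2
    exact Or.inl (WithOne.coe_injective (h1.trans h2.symm))
  · rcases eq_or_ne v 1 with rfl | hv0
    · rw [mul_one] at h1
      rw [one_mul] at h2
      exact Or.inl (WithOne.coe_injective (h1.trans h2.symm))
    · obtain ⟨u, rfl⟩ := WithOne.ne_one_iff_exists.1 hu0
      obtain ⟨v, rfl⟩ := WithOne.ne_one_iff_exists.1 hv0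
      rw [← WithOne.coe_mul] at h1 h2
      exact Or.inr ⟨u, v, WithOne.coe_injective h1, WithOne.coe_injective h2⟩

theorem pconj_mul {S : Type*} (s : Semigroup S) (u v : S) : PConj s (u * v) (v * u) :=
  ⟨(u : WithOne S), (v : WithOne S), by rw [← WithOne.coe_mul], by rw [← WithOne.coe_mul]⟩

/-- There is a semigroup, all of whose variants have transitive p-conjugacy, while its own
p-conjugacy is not transitive. -/
theorem result : ∃ (S : Type) (s : Semigroup S),
    (∀ a : S, ∀ x y z : S, PConj (variant s a) x y → PConj (variant s a) y z →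
      PConj (variant s a) x z) ∧
    ∃ x y z : S, PConj s x y ∧ PConj s y z ∧ ¬ PConj s x z := by
  refine ⟨Fin 8, sg, ?_, 4, 5, 6, pconj_mul sg 0 1, pconj_mul sg 2 3, ?_⟩
  · intro a x y z hxy hyz
    have key : ∀ x y : Fin 8, PConj (variant sg a) x y → x = y := by
      intro x y h
      rcases pconj_cases _ h with h | ⟨u, v, h1, h2⟩
      · exact h
      · have e1 : x = 7 := h1.trans (tab3 u a v)
        have e2 : y = 7 := h2.trans (tab3 v a u)
        rw [e1, e2]
    rw [key _ _ hxy]
    exact hyz
  · intro h
    rcases pconj_cases _ h with h | ⟨u, v, h1, h2⟩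
    · exact absurd h (by decide)
    · have key : ∀ u v : Fin 8, 4 = tab u v → 6 = tab v u → False := by decide
      exact key u v h1 h2

end Pool.Agent.Results.MP_9df05e_al.Variants
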